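import Pool.Agent.Helper35.MS.StD

/-!
Project MS, module AIM: the test function is a strict subsolution where it vanishes.
-/

set_option autoImplicit false

namespace Helper8.MS

open Helper35.MS Helper35.PI Helper35.PI2 Helper32.CL
open scoped ContDiff Manifold Topology ENNReal BigOperators
open MeasureTheory Set Filter

private theorem alg (r η k G g0 g1 jS jX jV X0 X1 V0 V1 SA SM P x s v D α β d1 d2 e1 e2 y1 y2 : ℝ)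
    (hr : 0 < r) (hη : 0 < η) (hg0 : 0 < g0) (hvη : v ≤ η ^ 2) (hv : v = α ^ 2 + β ^ 2)
    (hX0 : r * X0 = 2 * y1) (hX1 : r * X1 = 2 * y2)
    (hV0 : r * V0 = 2 * (α * d1 + β * e1)) (hV1 : r * V1 = 2 * (α * d2 + β * e2))
    (hS : r ^ 2 * jS = -2 * SA + 4 * v + 4 * s ^ 2 + 8 * D - 4 * s)
    (hX : r ^ 2 * jX = -2 * SM + 4 * x ^ 2 + 4 * x + 4 * v)
    (hV : r ^ 2 * jV = -2 * (d1 ^ 2 + e1 ^ 2 + d2 ^ 2 + e2 ^ 2) - 4 * P + 8 * (x + s) * v)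
    (hB : v + s ^ 2 + 2 * D - s < k * (x ^ 2 + x + v) - g0 * (x + s) * v / η)
    (hQ : 0 ≤ 2 * SA - 2 * k * SM - 4 * G * (y1 ^ 2 + y2 ^ 2) + 2 * g0 / η * P
      - 4 * g1 / η * (y1 * (α * d1 + β * e1) + y2 * (α * d2 + β * e2))) :
    jS - k * jX + G * (X0 ^ 2 + X1 ^ 2) + g0 * (jV / (2 * η) + (V0 ^ 2 + V1 ^ 2) / (4 * η ^ 3))
      + g1 * (X0 * V0 + X1 * V1) / η < 0 := by
  obtain ⟨E1, hE1⟩ : ∃ E1, E1 = α * d1 + β * e1 := ⟨_, rfl⟩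
  obtain ⟨E2, hE2⟩ : ∃ E2, E2 = α * d2 + β * e2 := ⟨_, rfl⟩
  rw [← hE1] at hV0 hQ
  rw [← hE2] at hV1 hQ
  obtain ⟨S2, hS2⟩ : ∃ S2, S2 = d1 ^ 2 + e1 ^ 2 + d2 ^ 2 + e2 ^ 2 := ⟨_, rfl⟩
  rw [← hS2] at hV
  have h1 : E1 ^ 2 + E2 ^ 2 ≤ η ^ 2 * S2 := by
    have a1 : E1 ^ 2 ≤ v * (d1 ^ 2 + e1 ^ 2) := by
      rw [hE1, hv]
      nlinarith [sq_nonneg (α * e1 - β * d1)]
    have a2 : E2 ^ 2 ≤ v * (d2 ^ 2 + e2 ^ 2) := by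
      rw [hE2, hv]
      nlinarith [sq_nonneg (α * e2 - β * d2)]
    have a3 : 0 ≤ S2 := by rw [hS2]; positivity
    calc E1 ^ 2 + E2 ^ 2 ≤ v * S2 := by rw [hS2]; linarith
      _ ≤ η ^ 2 * S2 := mul_le_mul_of_nonneg_right hvη a3
  have h2 : (E1 ^ 2 + E2 ^ 2) / η ^ 3 ≤ S2 / η := by
    rw [div_le_div_iff₀ (by positivity) hη]
    calc (E1 ^ 2 + E2 ^ 2) * η ≤ (η ^ 2 * S2) * η := mul_le_mul_of_nonneg_right h1 hη.le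
      _ = S2 * η ^ 3 := by ring
  have h3 : 0 ≤ g0 * (S2 / η - (E1 ^ 2 + E2 ^ 2) / η ^ 3) :=
    mul_nonneg hg0.le (by linarith)
  obtain ⟨W, hW⟩ : ∃ W, W = jS - k * jX + G * (X0 ^ 2 + X1 ^ 2) +
      g0 * (jV / (2 * η) + (V0 ^ 2 + V1 ^ 2) / (4 * η ^ 3)) +
      g1 * (X0 * V0 + X1 * V1) / η := ⟨_, rfl⟩
  rw [← hW]
  have key : r ^ 2 * W = -4 * (k * (x ^ 2 + x + v) - g0 * (x + s) * v / η -
      (v + s ^ 2 + 2 * D - s)) - (2 * SA - 2 * k * SM - 4 * G * (y1 ^ 2 + y2 ^ 2) + 2 * g0 / η * P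
      - 4 * g1 / η * (y1 * E1 + y2 * E2)) -
      g0 * (S2 / η - (E1 ^ 2 + E2 ^ 2) / η ^ 3) := by
    rw [hW]
    linear_combination hS - k * hX + G * ((r * X0 + 2 * y1) * hX0 + (r * X1 + 2 * y2) * hX1) +
      g0 / (2 * η) * hV + g0 / (4 * η ^ 3) * ((r * V0 + 2 * E1) * hV0 + (r * V1 + 2 * E2) * hV1) +
      g1 / η * ((r * V0) * hX0 + 2 * y1 * hV0 + (r * V1) * hX1 + 2 * y2 * hV1)
  have h4 : r ^ 2 * W < 0 := by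
    rw [key]
    linarith
  by_contra hneg
  push Not at hneg
  have h5 : 0 ≤ r ^ 2 * W := mul_nonneg (by positivity) hneg
  linarith

theorem hAIM (hSPH : StSPH) (hJID : StJID) (hPJ1 : StPJ1) (hPJ2 : StPJ2) (hAV2 : StAV2)
    (hAV3 : StAV3) (hG1 : StG1) (hCE0 : StCE0) : StAIM := by
  intro N x₀ L u t₀ ε hG ht hε hε' hsph Φ hΦ
  obtain ⟨A, hA⟩ : ∃ A, A = jgg u ((0 : EE 2), t₀) := ⟨_, rfl⟩
  obtain ⟨T, hT⟩ : ∃ T, T = jggg u ((0 : EE 2), t₀) := ⟨_, rfl⟩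
  have hr2 : 0 < 1 - 4 * t₀ := by linarith
  obtain ⟨r, hrd⟩ : ∃ r, r = Real.sqrt (1 - 4 * t₀) := ⟨_, rfl⟩
  have hr : 0 < r := by rw [hrd]; exact Real.sqrt_pos.2 hr2
  have hrr : 1 - 4 * t₀ = r ^ 2 := by rw [hrd, Real.sq_sqrt hr2.le]
  obtain ⟨hx0, hAx, hTx⟩ := hSPH 2 N x₀ L u t₀ hG hsph A T hA hT
  obtain ⟨hsA, hsT, -, -⟩ := hG1 2 N x₀ L u t₀ hG
  rw [← hA] at hsA
  rw [← hT] at hsT
  obtain ⟨m, a, b, m₁, m₂, p, q, a₁, b₁, a₂, b₂, x, s, v, α, β, dα₁, dα₂, dβ₁, dβ₂, D, -, -, -, -,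
    -, -, -, ha₁, hb₁, ha₂, hb₂, hx, hs, hα, hβ, hv, hD, hdα₁, hdα₂, hdβ₁, hdβ₂, hxY, hsX, hvZ,
    gX0, gX1, gV0, gV1, hhS, hhX, hhV⟩ :=
    hJID N x₀ r (1 - 4 * t₀) A T hr hrr hx0 hsA hsT hAx hTx
  obtain ⟨S, hS⟩ : ∃ S : EE 2 × ℝ → ℝ, S = fun z =>
    (1 - 4 * z.2) * (2 * Xf x₀ L u z - Yf x₀ L u z) / 4 := ⟨_, rfl⟩
  obtain ⟨X, hX⟩ : ∃ X : EE 2 × ℝ → ℝ, X = fun z => (1 - 4 * z.2) * Yf x₀ L u z / 4 - 1 :=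
    ⟨_, rfl⟩
  obtain ⟨V, hV⟩ : ∃ V : EE 2 × ℝ → ℝ, V = fun z =>
    (1 - 4 * z.2) ^ 2 * (Zf x₀ L u z - Yf x₀ L u z ^ 2 / 2) / 8 := ⟨_, rfl⟩
  obtain ⟨cS, cX, cV, vS0, vX0, vV0, hg, jS, jX, jV⟩ :=
    hPJ1 N x₀ L u t₀ hG A T hA hT (1 - 4 * t₀) S X V rfl hS hX hV
  have hxn : 0 ≤ x := by rw [hx]; positivity
  have hvn : 0 ≤ v := by rw [hv]; positivity
  obtain ⟨η, hη⟩ : ∃ η, η = Real.sqrt (v + ε ^ 2) := ⟨_, rfl⟩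
  have hηp : 0 < η := by rw [hη]; exact Real.sqrt_pos.2 (by positivity)
  have hη2 : η ^ 2 = v + ε ^ 2 := by rw [hη, Real.sq_sqrt (by positivity)]
  have hXx : X (0, t₀) = x := by rw [vX0, hxY]
  have hVv : V (0, t₀) = v := by rw [vV0, hvZ]
  have hSs : S (0, t₀) = s := by rw [vS0, hsX]
  have hΦ' : Φ = (fun z => S z - fm0 (X z) + gm0 (X z) * Real.sqrt (V z + ε ^ 2)) := by
    rw [hΦ, hS, hX, hV]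
  obtain ⟨c2, hj⟩ := hPJ2 (0, t₀) S X V Φ ε x η cS cX cV hε hXx.symm hxn (by rw [hVv]; exact hvn)
    (by rw [hVv]; exact hη) hΦ'
  refine ⟨c2, fun h0 => ?_⟩
  have hs0 : s = fm0 x - gm0 x * η := by
    rw [hΦ'] at h0
    simp only [hXx, hVv, hSs, ← hη] at h0
    linarith
  have hv' : v = (inner ℝ m a : ℝ) ^ 2 + (inner ℝ m b : ℝ) ^ 2 := by rw [hv, hα, hβ]
  have hB := hAV2 (EE N) m a b ε x s v η hε hε' hx hs hv' hη hs0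
  rw [← hD] at hB
  have hQ := hAV3 (EE N) m a b m₁ m₂ p q ε x s v η (fm1 x + gm1 x * η) (fm2 x - gm2 x * η)
    hε hε' hx hs hv' hη hs0 rfl rfl a₁ b₁ a₂ b₂ α β dα₁ dα₂ dβ₁ dβ₂ ha₁ hb₁ ha₂ hb₂ hα hβ
    hdα₁ hdα₂ hdβ₁ hdβ₂
  have hg0 : 0 < gm0 x := (hCE0.1 x hxn).2.1
  rw [hrr] at hhS hhX hhV
  rw [hj]
  obtain ⟨gx0, gv0⟩ := hg 0
  obtain ⟨gx1, gv1⟩ := hg 1
  refine alg r η (fm1 x + gm1 x * η) (fm2 x - gm2 x * η) (gm0 x) (gm1 x) (jh S (0, t₀))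
    (jh X (0, t₀)) (jh V (0, t₀)) (jg X (0, t₀) 0) (jg X (0, t₀) 1) (jg V (0, t₀) 0)
    (jg V (0, t₀) 1) (‖a₁‖ ^ 2 + ‖b₁‖ ^ 2 + ‖a₂‖ ^ 2 + ‖b₂‖ ^ 2) (‖m₁‖ ^ 2 + ‖m₂‖ ^ 2)
    (α * (inner ℝ m₁ a₁ + inner ℝ m₂ a₂) + β * (inner ℝ m₁ b₁ + inner ℝ m₂ b₂))
    x s v D α β dα₁ dα₂ dβ₁ dβ₂ (inner ℝ m m₁) (inner ℝ m m₂) hr hηp hg0
    (by rw [hη2]; linarith [sq_nonneg ε]) hv ?_ ?_ ?_ ?_ ?_ ?_ ?_ hB hQ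
  · rw [gx0]; exact gX0
  · rw [gx1]; exact gX1
  · rw [gv0]; exact gV0
  · rw [gv1]; exact gV1
  · rw [jS, hrr, hhS]
  · rw [jX, hrr, hhX]
  · rw [jV, hrr, hhV]

end Helper8.MS
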