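import Pool.Agent.Helper35.MS.StE

/-!
Project MS, module LVL: elementary properties of the level functions.
-/

set_option autoImplicit false

namespace Helper8.MS

open Helper35.MS Helper35.PI Helper35.PI2 Helper32.CL
open scoped ContDiff Manifold Topology ENNReal BigOperators
open MeasureTheory Set Filter

private theorem lvl {M : Type} [MeasurableSpace M] (μ : Measure M) [IsFiniteMeasure μ] (h : M → ℝ)
    (hm : Measurable h) (h0 : ∀ q, 0 ≤ h q) (hi : Integrable (fun q => h q ^ 2) μ) (B : ℝ)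
    (hB : ∀ q, h q ≤ B) :
    (∀ a b, 0 < a → a ≤ b → μ.real {q | b ≤ h q} ≤ μ.real {q | a ≤ h q} ∧
      ∫ q in {q | b ≤ h q}, h q ^ 2 ∂μ ≤ ∫ q in {q | a ≤ h q}, h q ^ 2 ∂μ) ∧
    (∀ a, 0 < a → 0 ≤ μ.real {q | a ≤ h q} ∧ 0 ≤ ∫ q in {q | a ≤ h q}, h q ^ 2 ∂μ) ∧
    (∀ a, 0 < a → a ^ 2 * μ.real {q | a ≤ h q} ≤ ∫ q in {q | a ≤ h q}, h q ^ 2 ∂μ ∧
      ∫ q in {q | a ≤ h q}, h q ^ 2 ∂μ - ∫ q in {q | 2 * a ≤ h q}, h q ^ 2 ∂μ ≤
        4 * a ^ 2 * μ.real {q | a ≤ h q} ∧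
      ∫ q in {q | a ≤ h q}, h q ^ 2 ∂μ ≤ ∫ q, h q ^ 2 ∂μ) ∧
    ∃ A₀ : ℝ, ∀ a, A₀ ≤ a → ∫ q in {q | a ≤ h q}, h q ^ 2 ∂μ = 0 := by
  have hms : ∀ a : ℝ, MeasurableSet {q | a ≤ h q} := fun a => measurableSet_le measurable_const hm
  have hpos : ∀ q, 0 ≤ h q ^ 2 := fun q => sq_nonneg _
  refine ⟨?_, ?_, ?_, ?_⟩
  · intro a b _ hab
    have hsub : {q | b ≤ h q} ⊆ {q | a ≤ h q} := fun q hq => hab.trans hq
    exact ⟨measureReal_mono hsub, setIntegral_mono_set hi.integrableOn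
      (Filter.Eventually.of_forall hpos) hsub.eventuallyLE⟩
  · intro a _
    exact ⟨measureReal_nonneg, integral_nonneg hpos⟩
  · intro a ha
    refine ⟨?_, ?_, ?_⟩
    · have h1 : ∫ _ in {q | a ≤ h q}, a ^ 2 ∂μ ≤ ∫ q in {q | a ≤ h q}, h q ^ 2 ∂μ := by
        refine setIntegral_mono_on (integrable_const _).integrableOn hi.integrableOn (hms a) ?_
        intro q hq
        exact pow_le_pow_left₀ ha.le hq 2
      rw [setIntegral_const, smul_eq_mul, mul_comm] at h1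
      exact h1
    · have hsub : {q | 2 * a ≤ h q} ⊆ {q | a ≤ h q} := fun q hq => by
        have hq' : 2 * a ≤ h q := hq
        show a ≤ h q
        linarith
      rw [← setIntegral_sdiff (hms (2 * a)) hi.integrableOn hsub]
      have h1 : ∫ q in {q | a ≤ h q} \ {q | 2 * a ≤ h q}, h q ^ 2 ∂μ ≤
          ∫ _ in {q | a ≤ h q} \ {q | 2 * a ≤ h q}, 4 * a ^ 2 ∂μ := by
        refine setIntegral_mono_on hi.integrableOn (integrable_const _).integrableOn
          ((hms a).diff (hms (2 * a))) ?_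
        rintro q ⟨-, hq⟩
        have hq' : h q < 2 * a := not_le.1 hq
        calc h q ^ 2 ≤ (2 * a) ^ 2 := pow_le_pow_left₀ (h0 q) hq'.le 2
          _ = 4 * a ^ 2 := by ring
      rw [setIntegral_const, smul_eq_mul] at h1
      have h2 : μ.real ({q | a ≤ h q} \ {q | 2 * a ≤ h q}) ≤ μ.real {q | a ≤ h q} :=
        measureReal_mono sdiff_subset
      calc ∫ q in {q | a ≤ h q} \ {q | 2 * a ≤ h q}, h q ^ 2 ∂μ ≤
            μ.real ({q | a ≤ h q} \ {q | 2 * a ≤ h q}) * (4 * a ^ 2) := h1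
        _ ≤ μ.real {q | a ≤ h q} * (4 * a ^ 2) := mul_le_mul_of_nonneg_right h2 (by positivity)
        _ = 4 * a ^ 2 * μ.real {q | a ≤ h q} := mul_comm _ _
    · exact setIntegral_le_integral hi (Filter.Eventually.of_forall hpos)
  · refine ⟨B + 1, fun a ha => ?_⟩
    have h1 : {q | a ≤ h q} = ∅ := by
      ext q
      constructor
      · intro hq
        have hq' : a ≤ h q := hq
        have := hB q
        linarith
      · intro hq
        exact absurd hq (notMem_empty q)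
    rw [h1, setIntegral_empty]

theorem hLVL (hMUJ : StMUJ) (hI4J : StI4J) : StLVL := by
  intro N M _ _ _ _ _ _ _ J F c χ hS t ht
  obtain ⟨s, -, hs⟩ := hMUJ 2 N M J F c χ hS
  obtain ⟨hfin, -, hint⟩ := hs t ht
  have hcH := (hI4J 2 N M J F hS.mcf).2.1
  have hc1 : Continuous (fun q => HH (n := 2) F q t) := by
    refine ContinuousOn.comp_continuous (f := fun q : M => (q, t)) hcH (by fun_prop) ?_
    intro q
    exact ⟨mem_univ _, ht⟩
  have hc : Continuous (fun q => ‖HH (n := 2) F q t‖) := hc1.norm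
  have : IsFiniteMeasure (muM 2 F c χ t) := ⟨hfin⟩
  obtain ⟨B, hB⟩ := isCompact_univ.exists_bound_of_continuousOn hc.continuousOn
  exact lvl (muM 2 F c χ t) (fun q => ‖HH (n := 2) F q t‖) hc.measurable (fun q => norm_nonneg _)
    (hint _ (hc.pow 2)).1 B (fun q => (le_abs_self _).trans (hB q (mem_univ q)))

end Helper8.MS
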